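import Pool.Agent.TH464.PO.ShiftInst
import Pool.Agent.TH464.PO.GapFam

set_option autoImplicit false

/-!
# The joint law of consecutive gaps between almost prime pairs `m`, `m + d`, uniformly

Let `m` be good if `m` and `m + d` both have at most `r` prime factors, all larger than `X ^ (1 /
r)`. Let `V` be the product of `1 - ρ(p) / p` over the primes `p ≤ X ^ (1 / r)`. Given `θ > 0`, a
number `s` of gaps and an accuracy `ε`, for all `r ≥ r0` and all large `X`, uniformly for all even
`d ≤ X`, in ALL intervals `(Z, Z + Y]` inside `[0, 2 X]` of length `Y ≥ X ^ θ` and for ALL `t_0,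
..., t_(s-1)`: the proportion of the good integers `b` in `(Z, Z + Y]` whose next `s` gaps are
larger than `t_0`, ..., `t_(s-1)` is the product of the `e ^ (-t_j V)` up to `ε`. So `s`
consecutive gaps are asymptotically independent, and each is exponential in the scale `1 / V`.
-/

namespace Pool.Agent.Results.MP_b51559_nt.ConsecutiveGaps

open Finset Filter

/-- `N` has at most `B` prime factors (with multiplicity), all of them larger than `z`. -/
def AlmostPrime (B : ℕ) (z : ℝ) (N : ℕ) : Prop :=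
  N.primeFactorsList.length ≤ B ∧ ∀ p : ℕ, p.Prime → p ∣ N → z < (p : ℝ)

/-- `m` is good: `m` and `m + d` both have at most `r` prime factors, all larger than `X ^ (1 / r)`. -/
def Good (r X d m : ℕ) : Prop :=
  AlmostPrime r ((X : ℝ) ^ (1 / (r : ℝ))) m ∧ AlmostPrime r ((X : ℝ) ^ (1 / (r : ℝ))) (m + d)

open Classical in
/-- The sieve density: the product of `1 - ρ(p) / p` over the primes `p ≤ X ^ (1 / r)`, where `ρ(p)` is
the number of the `t` mod `p` with `p ∣ t` or `p ∣ t + d`. -/
noncomputable def V (r X d : ℕ) : ℝ :=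
  ∏ p ∈ (Finset.range (⌊(X : ℝ) ^ (1 / (r : ℝ))⌋₊ + 1)).filter Nat.Prime,
    (1 - (((Finset.range p).filter (fun t : ℕ => p ∣ t ∨ p ∣ t + d)).card : ℝ) / p)

/-- The next good integer after `b`. -/
noncomputable def next (r X d : ℕ) (b : ℕ) : ℕ :=
  sInf {m | b < m ∧ Good r X d m}

/-- The `j`-th gap after `b`: the distance between the `j`-th and the `(j + 1)`-st good integer after `b`,
where the `0`-th is `b` itself. -/
noncomputable def gap (r X d : ℕ) (b j : ℕ) : ℕ :=
  (next r X d)^[j + 1] b - (next r X d)^[j] b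

open Pool.Agent.TH464.PO

open Classical in
/-- **The joint law of `s` consecutive gaps**, uniformly in the pattern, in all intervals and for all gap
lengths. -/
theorem result (θ : ℝ) (hθ : 0 < θ) (s : ℕ) (ε : ℝ) (hε : 0 < ε) :
    ∃ r0 : ℕ, ∀ r : ℕ, r0 ≤ r → ∀ᶠ X : ℕ in atTop, ∀ d : ℕ, 1 ≤ d → d ≤ X → Even d →
      ∀ Z Y : ℕ, (X : ℝ) ^ θ ≤ Y → Z + Y ≤ 2 * X → ∀ t : Fin s → ℕ,
        |(((Finset.Ioc Z (Z + Y)).filter
            (fun b => Good r X d b ∧ ∀ j : Fin s, t j < gap r X d b j)).card : ℝ) -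
          Y * V r X d * ∏ j, Real.exp (-(t j * V r X d))| ≤ ε * (Y * V r X d) := by
  obtain ⟨r0, h⟩ := sh_igap 2 le_rfl θ hθ s ε hε
  refine ⟨r0, fun r hr => ?_⟩
  filter_upwards [h r hr] with X hX d hd1 hdX hde
  exact hX (P2 d) (P2_card d hd1) (P2_le d X hdX) (P2_ad d hde)
    (Good r X d) (V r X d) (P2_ap d r _) (P2_V d _)

end Pool.Agent.Results.MP_b51559_nt.ConsecutiveGaps
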