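import Mathlib
import Pool.Agent.TH899.UG.TD6

/-!
# A third of the multiples of every even number are differences of primes, at every scale

For all `ε, s > 0` there is `C` such that for every `q ≥ 1`, `η > 0` and all large `x`: for EVERY `a`
coprime to `q`, every `b ≥ 1` and every `H ≥ C` with `C q² b H ≤ x`, for at least `(1/3 - ε) H` of the
`k = 1, ..., H` there are at least `x ^ (1 - η)` primes `p ≡ a (mod q)` with `p + 2 q b k` prime and
`x ≤ p`, `p + 2 q b k ≤ (1 + s) x`.

Proof: two of any four classes of linear forms are hit by primes, uniformly in the constant terms and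
with the variable in a narrow window (`Pool.Agent.TH899.UG.NW.exactW`); a set of more than two thirds of
`{1, ..., H}` contains, for a positive proportion of the triples `u < v < w ≤ H`, all of
`u, v, w, v - u, w - u, w - v`, with `u, v, w` in two classes modulo `3`
(`Pool.Agent.TH899.UG.TD.quad`); and the box theorem of Erdos for 4-partite hypergraphs.
-/

set_option autoImplicit false

namespace Pool.Agent.Results.MP_b51559_nt.ThirdOfDifferences

open Finset Filter

open Classical in
theorem result (ε s : ℝ) (hε : 0 < ε) (hs : 0 < s) : ∃ C : ℕ, ∀ q : ℕ, 1 ≤ q → ∀ η : ℝ, 0 < η →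
    ∀ᶠ x : ℕ in atTop, ∀ a : ℕ, a.Coprime q → ∀ b H : ℕ, 1 ≤ b → C ≤ H → C * (q ^ 2 * b * H) ≤ x →
    (1 / 3 - ε) * (H : ℝ) ≤ (((Icc 1 H).filter (fun k : ℕ => (x : ℝ) ^ (1 - η) ≤
      ({p : ℕ | p.Prime ∧ (p + 2 * q * b * k).Prime ∧ p ≡ a [MOD q] ∧ (x : ℝ) ≤ p ∧
        ((p + 2 * q * b * k : ℕ) : ℝ) ≤ (1 + s) * x}.ncard : ℝ))).card : ℝ) :=
  Pool.Agent.TH899.UG.TD.thirdq ε s hε hs

end Pool.Agent.Results.MP_b51559_nt.ThirdOfDifferences
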